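import Pool.Agent.Zk89.PE.Defs

/-!
# FU: from powers of two to all integers
-/

set_option autoImplicit false
set_option linter.unusedSectionVars false

open Finset Filter Topology MeasureTheory

noncomputable section

namespace Pool.Agent.Zk17.PE

open Pool.Agent.Zk89.PE
open Pool.Agent.Zk89.MT (w gc cav ml_w)
open Pool.Agent.Zk89.BT (ml nrm th ml_sq_sum ml_sub nrm_sq)

/-- from the multiples of powers of two to all integers -/
theorem all_of_dil {f : ℕ → ℂ} {b : ℝ} (hf : ∀ n, ‖f n‖ ≤ b) {L : ℂ}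
    (h : ∀ u, 1 ≤ u → Tendsto (fun t : ℕ => ((u * 2 ^ t : ℕ) : ℂ)⁻¹ * ∑ n ∈ range (u * 2 ^ t), f n)
      atTop (𝓝 L)) :
    Tendsto (fun N : ℕ => (N : ℂ)⁻¹ * ∑ n ∈ range N, f n) atTop (𝓝 L) := by
  set s : ℕ → ℂ := fun N => (N : ℂ)⁻¹ * ∑ n ∈ range N, f n with hs
  have hb : 0 ≤ b := (norm_nonneg _).trans (hf 0)
  have hcmp : ∀ M N : ℕ, 1 ≤ M → M ≤ N → ‖s N - s M‖ ≤ 2 * b * ((N : ℝ) - M) / N := by
    intro M N hM hMN
    have hM0 : (0 : ℝ) < M := by exact_mod_cast hM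
    have hN0 : (0 : ℝ) < N := by exact_mod_cast (hM.trans hMN)
    have hMc : (M : ℂ) ≠ 0 := by exact_mod_cast hM0.ne'
    have hNc : (N : ℂ) ≠ 0 := by exact_mod_cast hN0.ne'
    have hMN' : (M : ℝ) ≤ N := by exact_mod_cast hMN
    have h1 : ∑ n ∈ range N, f n = ∑ n ∈ range M, f n + ∑ n ∈ Ico M N, f n := by
      rw [← sum_range_add_sum_Ico _ hMN]
    have h2 : ‖∑ n ∈ range M, f n‖ ≤ b * M := by
      refine (norm_sum_le _ _).trans ((sum_le_sum fun n _ => hf n).trans ?_)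
      rw [sum_const, card_range, nsmul_eq_mul, mul_comm]
    have h3 : ‖∑ n ∈ Ico M N, f n‖ ≤ b * ((N : ℝ) - M) := by
      refine (norm_sum_le _ _).trans ((sum_le_sum fun n _ => hf n).trans ?_)
      rw [sum_const, Nat.card_Ico, nsmul_eq_mul, Nat.cast_sub hMN, mul_comm]
    have h4 : s N - s M = (N : ℂ)⁻¹ * ∑ n ∈ Ico M N, f n -
        (((N : ℝ) - M : ℝ) : ℂ) / (N * M) * ∑ n ∈ range M, f n := by
      simp only [hs]
      rw [h1]
      push_cast
      field_simp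
      ring
    rw [h4]
    refine (norm_sub_le _ _).trans ?_
    rw [norm_mul, norm_mul, norm_inv, norm_div, norm_mul, Complex.norm_natCast,
      Complex.norm_natCast, Complex.norm_real, Real.norm_eq_abs, abs_of_nonneg (by linarith)]
    calc (N : ℝ)⁻¹ * ‖∑ n ∈ Ico M N, f n‖ + ((N : ℝ) - M) / (N * M) * ‖∑ n ∈ range M, f n‖
        ≤ (N : ℝ)⁻¹ * (b * ((N : ℝ) - M)) + ((N : ℝ) - M) / (N * M) * (b * M) := by
          have : 0 ≤ ((N : ℝ) - M) / (N * M) := div_nonneg (by linarith) (by positivity)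
          gcongr
      _ = 2 * b * ((N : ℝ) - M) / N := by
        field_simp
        ring
  rw [Metric.tendsto_atTop]
  intro ε hε
  obtain ⟨K, hK⟩ : ∃ K : ℕ, 2 * b / 2 ^ K < ε / 2 := by
    obtain ⟨K, hK⟩ := pow_unbounded_of_one_lt (4 * b / ε) (by norm_num : (1 : ℝ) < 2)
    refine ⟨K, ?_⟩
    rw [div_lt_iff₀ hε] at hK
    rw [div_lt_iff₀ (by positivity)]
    linarith
  have h1 : ∀ u ∈ Finset.Ico (2 ^ K) (2 ^ (K + 1)),
      ∀ᶠ t : ℕ in atTop, dist (s (u * 2 ^ t)) L < ε / 2 := by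
    intro u hu
    have hu1 : 1 ≤ u := Nat.one_le_two_pow.trans (mem_Ico.1 hu).1
    exact (Metric.tendsto_nhds.1 (h u hu1)) (ε / 2) (by linarith)
  obtain ⟨t₀, ht₀⟩ := eventually_atTop.1 ((Filter.eventually_all_finset _).2 h1)
  refine ⟨2 ^ (K + t₀), fun N hN => ?_⟩
  have hN1 : 1 ≤ N := Nat.one_le_two_pow.trans hN
  set l := Nat.log 2 N with hl
  have hl1 : K + t₀ ≤ l := Nat.le_log_of_pow_le (by norm_num) hN
  have hl2 : 2 ^ l ≤ N := Nat.pow_log_le_self 2 (by omega)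
  have hl3 : N < 2 ^ (l + 1) := Nat.lt_pow_succ_log_self (by norm_num) N
  set t := l - K with ht
  have hlt : l = K + t := by omega
  set u := N / 2 ^ t with hu
  have h2t : 0 < 2 ^ t := by positivity
  have hu1 : 2 ^ K ≤ u := by
    rw [hu, Nat.le_div_iff_mul_le h2t, ← pow_add, ← hlt]
    exact hl2
  have hu2 : u < 2 ^ (K + 1) := by
    rw [hu, Nat.div_lt_iff_lt_mul h2t, ← pow_add]
    rw [hlt] at hl3
    convert hl3 using 2
    ring
  have hut : u * 2 ^ t ≤ N := Nat.div_mul_le_self _ _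
  have hut2 : N < u * 2 ^ t + 2 ^ t := by
    have := Nat.lt_div_mul_add h2t (a := N)
    rwa [← hu] at this
  have hu0 : 1 ≤ u := Nat.one_le_two_pow.trans hu1
  have hM1 : 1 ≤ u * 2 ^ t := Nat.mul_pos hu0 h2t
  have h3 := hcmp (u * 2 ^ t) N hM1 hut
  have h4 := ht₀ t (by omega) u (mem_Ico.2 ⟨hu1, hu2⟩)
  have h5 : 2 * b * ((N : ℝ) - (u * 2 ^ t : ℕ)) / N ≤ 2 * b / 2 ^ K := by
    have hN0 : (0 : ℝ) < N := by exact_mod_cast hN1
    have hK0 : (0 : ℝ) < 2 ^ K := by positivity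
    rw [div_le_div_iff₀ hN0 hK0]
    have h6 : ((N : ℝ) - (u * 2 ^ t : ℕ)) ≤ 2 ^ t := by
      have : (N : ℝ) < (u * 2 ^ t : ℕ) + 2 ^ t := by exact_mod_cast hut2
      linarith
    have h7 : (2 : ℝ) ^ t * 2 ^ K ≤ N := by
      have h8 : 2 ^ t * 2 ^ K ≤ N := by
        rw [← pow_add, add_comm, ← hlt]
        exact hl2
      exact_mod_cast h8
    calc 2 * b * ((N : ℝ) - (u * 2 ^ t : ℕ)) * 2 ^ K ≤ 2 * b * 2 ^ t * 2 ^ K := by gcongr
      _ = 2 * b * (2 ^ t * 2 ^ K) := by ring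
      _ ≤ 2 * b * N := by gcongr
  calc dist (s N) L ≤ dist (s N) (s (u * 2 ^ t)) + dist (s (u * 2 ^ t)) L := dist_triangle _ _ _
    _ < ε / 2 + ε / 2 := by
      refine add_lt_add_of_le_of_lt ?_ h4
      rw [dist_eq_norm]
      linarith
    _ = ε := by ring

section alg

variable {C : Type*} [CommGroup C]

/-- the coefficients of the dilated curve -/
def dil (a : ℕ → C) (D u r l : ℕ) : C :=
  ∏ i ∈ range D, a i ^ ((i + 1).choose (l + 1) * u ^ (l + 1) * r ^ (i - l))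

theorem binom (D u r m : ℕ) {i : ℕ} (hi : i < D) :
    (u * m + r) ^ (i + 1) = r ^ (i + 1) +
      ∑ l ∈ range D, (i + 1).choose (l + 1) * u ^ (l + 1) * r ^ (i - l) * m ^ (l + 1) := by
  rw [add_pow, sum_range_succ']
  simp only [pow_zero, one_mul, Nat.choose_zero_right, Nat.sub_zero, Nat.cast_id]
  rw [add_comm]
  congr 1
  · simp
  have h1 : ∑ k ∈ range (i + 1), (u * m) ^ (k + 1) * r ^ (i + 1 - (k + 1)) * (i + 1).choose (k + 1)
      = ∑ l ∈ range (i + 1), (i + 1).choose (l + 1) * u ^ (l + 1) * r ^ (i - l) * m ^ (l + 1) := by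
    refine sum_congr rfl fun l _ => ?_
    rw [mul_pow, Nat.add_sub_add_right]
    ring
  rw [h1]
  refine sum_subset (range_subset_range.2 hi) fun l _ hl => ?_
  rw [Nat.choose_eq_zero_of_lt (by
    rw [mem_range] at hl
    omega)]
  simp

theorem gc_dil (a : ℕ → C) (D u r m : ℕ) :
    gc a D (u * m + r) = gc a D r * gc (dil a D u r) D m := by
  unfold gc dil
  have h1 : ∏ l ∈ range D, (∏ i ∈ range D,
      a i ^ ((i + 1).choose (l + 1) * u ^ (l + 1) * r ^ (i - l))) ^ (m ^ (l + 1)) =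
      ∏ i ∈ range D, ∏ l ∈ range D,
        a i ^ ((i + 1).choose (l + 1) * u ^ (l + 1) * r ^ (i - l) * m ^ (l + 1)) := by
    rw [Finset.prod_comm]
    refine prod_congr rfl fun l _ => ?_
    rw [← prod_pow]
    refine prod_congr rfl fun i _ => ?_
    rw [← pow_mul]
  rw [h1, ← prod_mul_distrib]
  refine prod_congr rfl fun i hi => ?_
  rw [binom D u r m (mem_range.1 hi), pow_add, prod_pow_eq_pow_sum]

theorem sum_dil {A : Type*} [AddCommMonoid A] (g : ℕ → A) (u N : ℕ) :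
    ∑ n ∈ range (u * N), g n = ∑ r ∈ range u, ∑ m ∈ range N, g (u * m + r) := by
  rw [sum_comm]
  induction N with
  | zero => simp
  | succ N ih => rw [Nat.mul_succ, sum_range_add, ih, sum_range_succ]

theorem sum_step {A B : ℕ} (h : B ≤ A) (f : ℕ → ℂ) (α β : ℂ) :
    ∑ n ∈ range A, (α - if n < B then β else 0) * f n =
      α * ∑ n ∈ range A, f n - β * ∑ n ∈ range B, f n := by
  simp only [sub_mul, sum_sub_distrib, ite_mul, zero_mul]
  rw [mul_sum, mul_sum, ← sum_filter]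
  congr 2
  ext n
  simp only [mem_filter, mem_range]
  omega

end alg

section conv

variable {X : Type} [MeasurableSpace X] {μ : Measure X} [IsProbabilityMeasure μ]
  {C : Type} [CommGroup C] {Ψ : C →* Equiv.Perm X}

theorem cav_dil (a : ℕ → C) (D : ℕ) (F : X → ℂ) {u : ℕ} (N : ℕ) (x : X) :
    cav Ψ a D F (u * N) x =
      (u : ℂ)⁻¹ * ∑ r ∈ range u, cav Ψ (dil a D u r) D (fun y => F (Ψ (gc a D r) y)) N x := by
  unfold cav
  rw [sum_dil, Nat.cast_mul, mul_inv, mul_assoc, ← mul_sum]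
  congr 2
  refine sum_congr rfl fun r _ => sum_congr rfl fun m _ => ?_
  rw [gc_dil, map_mul, Equiv.Perm.mul_apply]

theorem cav_meas (hmp : ∀ a, MeasurePreserving (Ψ a) μ μ) (a : ℕ → C) (D : ℕ) {F : X → ℂ}
    (hF : Measurable F) (N : ℕ) : Measurable (cav Ψ a D F N) :=
  (Finset.measurable_sum _ fun n _ => hF.comp (hmp (gc a D n)).measurable).const_mul _

theorem cav_le (a : ℕ → C) (D : ℕ) {F : X → ℂ} {b : ℝ} (hb : 0 ≤ b) (hF : ∀ x, ‖F x‖ ≤ b)
    (N : ℕ) (x : X) : ‖cav Ψ a D F N x‖ ≤ b := by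
  unfold cav
  rw [norm_mul, norm_inv, Complex.norm_natCast]
  rcases Nat.eq_zero_or_pos N with h0 | h0
  · subst h0
    simpa using hb
  · have hN0 : (0 : ℝ) < N := by exact_mod_cast h0
    rw [inv_mul_le_iff₀ hN0]
    refine (norm_sum_le _ _).trans ((sum_le_sum fun n _ => hF _).trans ?_)
    rw [sum_const, card_range, nsmul_eq_mul]

theorem conv_dil {D : ℕ} (hDY : DY D) (hmp : ∀ a, MeasurePreserving (Ψ a) μ μ) (a : ℕ → C)
    {F : X → ℂ} (hF : Measurable F) (hb : ∃ b, ∀ x, ‖F x‖ ≤ b) (u : ℕ) :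
    ∀ᵐ x ∂μ, ∃ L, Tendsto (fun t : ℕ => cav Ψ a D F (u * 2 ^ t) x) atTop (𝓝 L) := by
  obtain ⟨b, hb⟩ := hb
  have h1 : ∀ r ∈ range u, ∀ᵐ x ∂μ, ∃ L, Tendsto (fun t : ℕ =>
      cav Ψ (dil a D u r) D (fun y => F (Ψ (gc a D r) y)) (2 ^ t) x) atTop (𝓝 L) := by
    intro r _
    exact hDY hmp _ (hF.comp (hmp (gc a D r)).measurable) ⟨b, fun x => hb _⟩
  filter_upwards [(eventually_all_finset _).2 h1] with x hx
  choose! L hL using hx
  refine ⟨(u : ℂ)⁻¹ * ∑ r ∈ range u, L r, ?_⟩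
  simp only [cav_dil]
  exact (tendsto_finsetSum _ fun r hr => hL r hr).const_mul _

/-- the difference of the averages over `u 2^t` and `2^t` -/
def dv (Ψ : C →* Equiv.Perm X) (a : ℕ → C) (D : ℕ) (F : X → ℂ) (u t : ℕ) (x : X) : ℂ :=
  cav Ψ a D F (u * 2 ^ t) x - cav Ψ a D F (2 ^ t) x

theorem l2 {D : ℕ} (hTR : S_TR) (hEX : S_EX) (hmp : ∀ a, MeasurePreserving (Ψ a) μ μ) (a : ℕ → C)
    {F : X → ℂ} (hF : Measurable F) {b : ℝ} (hb : ∀ x, ‖F x‖ ≤ b) {u : ℕ} (hu : 1 ≤ u) {ε : ℝ}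
    (hε : 0 < ε) : ∃ T₀ : ℕ, ∀ T ≥ T₀, ∑ t ∈ range T, ∫ x, ‖dv Ψ a D F u t x‖ ^ 2 ∂μ ≤
      2 * (ε * T) * ∫ x, ‖F x‖ ^ 2 ∂μ := by
  obtain ⟨T₀, hT₀⟩ := hEX D u 0 hu ε hε
  refine ⟨T₀, fun T hT => ?_⟩
  have hεT : 0 ≤ ε * T := by positivity
  have hle : ∀ t : ℕ, 2 ^ t ≤ u * 2 ^ t := fun t => Nat.le_mul_of_pos_left _ hu
  let I : ℕ → Finset ℕ := fun t => range (u * 2 ^ t)
  let v : ℕ → ℕ → ℕ → ℕ := fun _ n r => n ^ (r + 1)
  let c : ℕ → ℕ → ℂ := fun t n =>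
    ((u * 2 ^ t : ℕ) : ℂ)⁻¹ - if n < 2 ^ t then ((2 ^ t : ℕ) : ℂ)⁻¹ else 0
  have key := hTR (ι := ℕ) D T (fun j => {(j : ℕ)}) I v c (ε * T) hεT ?_ (μ := μ) hmp a hF hb
    (fun j x => ‖dv Ψ a D F u j x‖)
    (fun j => ((cav_meas hmp a D hF _).sub (cav_meas hmp a D hF _)).norm)
    (fun j x => norm_nonneg _) ?_
  · rw [Fin.sum_univ_eq_sum_range (fun t => ∫ x, ‖dv Ψ a D F u t x‖ ^ 2 ∂μ)] at key
    exact key
  · intro M _ B f τ hτ
    have h1 : ∀ (j : Fin T) (x : ZMod M), opZ D (I (τ j x)) (v (τ j x)) (c (τ j x)) B f x =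
        ml (fun k => w D (u * 2 ^ (j : ℕ)) (fun r => B r * th k) -
          w D (2 ^ (j : ℕ)) (fun r => B r * th k)) f x := by
      intro j x
      rw [mem_singleton.1 (hτ j x), ml_sub, ml_w, ml_w]
      exact sum_step (hle j) (fun n => f (x + ((∑ r ∈ range D, n ^ (r + 1) * B r : ℕ) : ZMod M)))
        _ _
    simp only [h1]
    have h2 := ml_sq_sum (univ : Finset (Fin T)) (fun j k => w D (u * 2 ^ (j : ℕ))
      (fun r => B r * th k) - w D (2 ^ (j : ℕ)) (fun r => B r * th k)) f (C := √(ε * T)) (by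
        intro k
        rw [Real.sq_sqrt hεT]
        have h3 := hT₀ T hT (fun r => B r * th k)
        simp only [zero_add] at h3
        rw [Fin.sum_univ_eq_sum_range (fun t => ‖w D (u * 2 ^ t) (fun r => B r * th k) -
          w D (2 ^ t) (fun r => B r * th k)‖ ^ 2)]
        exact h3)
    rwa [mul_pow, Real.sq_sqrt hεT, nrm_sq] at h2
  · intro j x
    refine ⟨j, mem_singleton_self _, le_of_eq ?_⟩
    congr 1
    exact (sum_step (hle j) (fun n => F (Ψ (gc a D n) x)) _ _).symm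

theorem dv_zero {D : ℕ} (hTR : S_TR) (hEX : S_EX) (hDY : DY D)
    (hmp : ∀ a, MeasurePreserving (Ψ a) μ μ) (a : ℕ → C)
    {F : X → ℂ} (hF : Measurable F) {b : ℝ} (hb : ∀ x, ‖F x‖ ≤ b) {u : ℕ} (hu : 1 ≤ u) :
    ∀ᵐ x ∂μ, Tendsto (fun t : ℕ => dv Ψ a D F u t x) atTop (𝓝 0) := by
  have hb0 : 0 ≤ b := by
    have : Nonempty X := nonempty_of_isProbabilityMeasure μ
    obtain ⟨x⟩ := this
    exact (norm_nonneg _).trans (hb x)
  have h1 := conv_dil hDY hmp a hF ⟨b, hb⟩ u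
  have h2 := hDY hmp a hF ⟨b, hb⟩
  have hdm : ∀ t, Measurable (dv Ψ a D F u t) := fun t =>
    (cav_meas hmp a D hF _).sub (cav_meas hmp a D hF _)
  have hdb : ∀ t x, ‖dv Ψ a D F u t x‖ ≤ 2 * b := fun t x =>
    (norm_sub_le _ _).trans (by
      have := cav_le (Ψ := Ψ) a D hb0 hb (u * 2 ^ t) x
      have := cav_le (Ψ := Ψ) a D hb0 hb (2 ^ t) x
      linarith)
  have h3 : ∀ᵐ x ∂μ, ∃ L, Tendsto (fun t : ℕ => dv Ψ a D F u t x) atTop (𝓝 L) := by
    filter_upwards [h1, h2] with x ⟨L1, hL1⟩ ⟨L2, hL2⟩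
    exact ⟨L1 - L2, hL1.sub hL2⟩
  set g : X → ℝ := fun x => limUnder atTop (fun t : ℕ => ‖dv Ψ a D F u t x‖ ^ 2) with hg
  have h4 : ∀ᵐ x ∂μ, Tendsto (fun t : ℕ => ‖dv Ψ a D F u t x‖ ^ 2) atTop (𝓝 (g x)) := by
    filter_upwards [h3] with x ⟨L, hL⟩
    exact tendsto_nhds_limUnder ⟨_, hL.norm.pow 2⟩
  have hgm : AEStronglyMeasurable g μ := aestronglyMeasurable_of_tendsto_ae atTop
    (fun t => ((hdm t).norm.pow_const 2).aestronglyMeasurable) h4
  have hg0 : 0 ≤ᵐ[μ] g := by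
    filter_upwards [h4] with x hx
    exact ge_of_tendsto' hx fun t => sq_nonneg _
  have hgb : ∀ᵐ x ∂μ, ‖g x‖ ≤ (2 * b) ^ 2 := by
    filter_upwards [h4, hg0] with x hx hx0
    rw [Real.norm_eq_abs, abs_of_nonneg hx0]
    exact le_of_tendsto' hx fun t => pow_le_pow_left₀ (norm_nonneg _) (hdb t x) 2
  have hgi : Integrable g μ := Integrable.of_bound hgm _ hgb
  have h5 : Tendsto (fun t : ℕ => ∫ x, ‖dv Ψ a D F u t x‖ ^ 2 ∂μ) atTop (𝓝 (∫ x, g x ∂μ)) := by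
    refine tendsto_integral_of_dominated_convergence (fun _ => (2 * b) ^ 2)
      (fun t => ((hdm t).norm.pow_const 2).aestronglyMeasurable) (integrable_const _)
      (fun t => Eventually.of_forall fun x => ?_) h4
    rw [Real.norm_eq_abs, abs_of_nonneg (sq_nonneg _)]
    exact pow_le_pow_left₀ (norm_nonneg _) (hdb t x) 2
  have h6 := h5.cesaro
  have hFi : 0 ≤ ∫ x, ‖F x‖ ^ 2 ∂μ := integral_nonneg fun x => sq_nonneg _
  have h7 : ∫ x, g x ∂μ ≤ 0 := by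
    refine le_of_forall_pos_le_add fun ε hε => ?_
    rw [zero_add]
    set A := ∫ x, ‖F x‖ ^ 2 ∂μ with hA
    obtain ⟨T₀, hT₀⟩ := l2 (D := D) hTR hEX hmp a hF hb hu (ε := ε / (2 * (A + 1)))
      (by positivity)
    refine le_of_tendsto h6 ?_
    filter_upwards [eventually_ge_atTop T₀, eventually_ge_atTop 1] with T hT hT1
    have hT0 : (0 : ℝ) < T := by exact_mod_cast hT1
    rw [inv_mul_le_iff₀ hT0]
    refine (hT₀ T hT).trans ?_
    rw [← hA]
    have e1 : 2 * (ε / (2 * (A + 1)) * T) * A = T * ε * (A / (A + 1)) := by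
      field_simp
    rw [e1]
    have h8 : A / (A + 1) ≤ 1 := by
      rw [div_le_one (by linarith)]
      linarith
    exact mul_le_of_le_one_right (by positivity) h8
  have h8 : ∫ x, g x ∂μ = 0 := le_antisymm h7 (integral_nonneg_of_ae hg0)
  have h9 := (integral_eq_zero_iff_of_nonneg_ae hg0 hgi).1 h8
  filter_upwards [h4, h9] with x hx hx0
  rw [hx0] at hx
  rw [tendsto_zero_iff_norm_tendsto_zero]
  have h10 := (Real.continuous_sqrt.tendsto _).comp hx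
  simp only [Pi.zero_apply, Real.sqrt_zero] at h10
  refine h10.congr fun t => ?_
  simp only [Function.comp]
  exact Real.sqrt_sq (norm_nonneg _)

end conv

/-- **FU** -/
theorem fu : S_FU := by
  intro D hTR hEX hDY X C _ μ _ _ Ψ hmp a F hF hbd
  obtain ⟨b, hb⟩ := hbd
  have h1 : ∀ᵐ x ∂μ, ∀ u : ℕ, 1 ≤ u → Tendsto (fun t : ℕ => dv Ψ a D F u t x) atTop (𝓝 0) := by
    rw [ae_all_iff]
    intro u
    by_cases hu : 1 ≤ u
    · filter_upwards [dv_zero hTR hEX hDY hmp a hF hb hu] with x hx _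
      exact hx
    · exact Eventually.of_forall fun x h => absurd h hu
  filter_upwards [h1, hDY hmp a hF ⟨b, hb⟩] with x hx ⟨L, hL⟩
  refine ⟨L, ?_⟩
  refine all_of_dil (f := fun n => F (Ψ (gc a D n) x)) (fun n => hb _) fun u hu => ?_
  have h2 := (hx u hu).add hL
  rw [zero_add] at h2
  refine h2.congr fun t => ?_
  unfold dv
  rw [sub_add_cancel]
  rfl

end Pool.Agent.Zk17.PE
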